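import Pool.Agent.H6.MinSub

/-! Volume growth lower bounds for minimal subgraphs of `ℤⁿ`. -/

namespace Pool.Agent.Results.MP_f12303_co.Q1

open Pool.Agent.H6.MinSub Filter

theorem result (n : ℕ) (hn : 3 ≤ n) : ∃ c2 c4 : ℝ, 0 < c2 ∧ 0 < c4 ∧
    ∀ M : Set (Fin n → ℤ), IsMinimal M → ∀ x ∈ M, ∀ᶠ r : ℝ in atTop,
      c2 * r ^ n ≤ (M ∩ box x r).ncard ∧ c4 * r ^ (n - 1) ≤ (vB M ∩ box x r).ncard := by
  obtain ⟨m, rfl⟩ : ∃ m, n = m + 1 := ⟨n - 1, by omega⟩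
  exact main m

end Pool.Agent.Results.MP_f12303_co.Q1
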